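import Mathlib
import Pool.Agent.H955R3.WindowD
import Pool.Agent.Y699.W.Rank1

open NumberField IsDedekindDomain Pool.Agent.H955R3.Window Pool.Agent.Y699.W

namespace Pool.Agent.Results.MP_f42bc2_nt.UnitRankOne

/-- The field `F = ℚ(√2)` has unit rank one. -/
theorem rank_F_eq : NumberField.Units.rank F = 1 := by
  have h1 := rank_F
  have h2 : Module.finrank ℚ F = 2 := QuadraticAlgebra.finrank_eq_two _ _
  have h3 := InfinitePlace.card_add_two_mul_card_eq_rank F
  have h4 : Fintype.card (InfinitePlace F) =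
      InfinitePlace.nrRealPlaces F + InfinitePlace.nrComplexPlaces F :=
    InfinitePlace.card_eq_nrRealPlaces_add_nrComplexPlaces F
  unfold NumberField.Units.rank at h1 ⊢
  omega

/-- **Q1 fails at every prime of every norm-Euclidean field of unit rank one.**

Let `K` be any number field of unit rank one and `𝔭` any nonzero prime of `𝓞 K`.
* No element of the Euclidean window `w(𝔭)` is smaller than `N𝔭`.
* `N𝔭 ∈ w(𝔭)` if and only if `𝓞 K` is norm-Euclidean.
* If `𝓞 K` is norm-Euclidean then `N𝔭` is the least element of `w(𝔭)`, and `w(𝔭)` is not an open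
  subset of `(1, ∞)`.

Norm-Euclidean fields of unit rank one exist (`ℚ(√2)`), so Q1 has a negative answer. -/
theorem result :
    (∀ (K : Type*) [Field K] [NumberField K], NumberField.Units.rank K = 1 →
      ∀ p : HeightOneSpectrum (𝓞 K),
        (∀ c ∈ window p, (Ideal.absNorm p.asIdeal : ℝ) ≤ c) ∧
        ((Ideal.absNorm p.asIdeal : ℝ) ∈ window p ↔ NormEuclidean K) ∧
        (NormEuclidean K → IsLeast (window p) (Ideal.absNorm p.asIdeal : ℝ) ∧
          ¬ IsOpen {x : Set.Ioi (1 : ℝ) | (x : ℝ) ∈ window p})) ∧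
    ∃ (K : Type) (_ : Field K) (_ : NumberField K),
      NumberField.Units.rank K = 1 ∧ Module.finrank ℚ K = 2 ∧ NormEuclidean K ∧
      Nonempty (HeightOneSpectrum (𝓞 K)) := by
  refine ⟨?_, F, inferInstance, inferInstance, rank_F_eq, ?_, F_euclid, ?_⟩
  · intro K _ _ hK p
    refine ⟨absNorm_le_of_rank_one hK p, mem_window_iff p, fun hE => ?_⟩
    have hL : IsLeast (window p) (Ideal.absNorm p.asIdeal : ℝ) :=
      ⟨absNorm_mem_window hE p, fun c hc => absNorm_le_of_rank_one hK p c hc⟩
    exact ⟨hL, not_isOpen_of_isLeast (one_lt_absNorm p) hL⟩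
  · exact QuadraticAlgebra.finrank_eq_two _ _
  · have h : ¬ IsField (𝓞 F) := NumberField.RingOfIntegers.not_isField F
    obtain ⟨I, hI0, hI1⟩ := Ring.not_isField_iff_exists_prime.mp h
    exact ⟨⟨I, hI1, hI0⟩⟩

end Pool.Agent.Results.MP_f42bc2_nt.UnitRankOne
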